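import Pool.Agent.W826.PB.Fin
import Pool.Agent.W925.PB.Russo
import Pool.Agent.W403.PB.Bridge
import Pool.Agent.W654.PB.Calc
import Pool.Agent.W768.PB.Local
import Pool.Agent.W356.PB.Trans
set_option autoImplicit false

/-!
MP_33582f_pr, Q1: the answer is no.  For threshold two in dimension three (and for every threshold
in every dimension) `phi p q = O(p)` as `p → 0+`, for every `q > q_c`.
-/

namespace Pool.Agent.Results.MP_33582f_pr.LinearBound
open Pool.Agent.W826.PB

/-- There is no `q > q_c` with `gamma q = ∞` (threshold 2, dimension 3); more generally, for every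
dimension `d`, every threshold `r` and every `q ∈ (q_c, 1]` there is a constant `C` with
`phi p q ≤ C p` for all `0 < p ≤ 1 - q`, so that `gamma q < ∞`. -/
theorem result :
    (¬ ∃ q : ℝ, qc 3 2 < q ∧ q ≤ 1 ∧ gamma 3 2 q = ⊤) ∧
    ∀ (d r : ℕ) (q : ℝ), qc d r < q → q ≤ 1 →
      (∃ C : ℝ, ∀ p : ℝ, 0 < p → p ≤ 1 - q → phi d r p q ≤ C * p) ∧ gamma d r q < ⊤ := by
  have key : ∀ (d r : ℕ) (q : ℝ), qc d r < q → q ≤ 1 →
      ∃ C : ℝ, ∀ p : ℝ, 0 < p → p ≤ 1 - q → phi d r p q ≤ C * p := fun d r q h hq =>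
    bound_of_qc Pool.Agent.W403.PB.main Pool.Agent.W768.PB.main Pool.Agent.W356.PB.Trans.main
      Pool.Agent.W925.PB.Russo.main Pool.Agent.W654.PB.main d r h hq
  refine ⟨?_, fun d r q h hq => ⟨key d r q h hq, ?_⟩⟩
  · rintro ⟨q, h, hq, hg⟩
    obtain ⟨C, hC⟩ := key 3 2 q h hq
    exact absurd hg (gamma_lt 3 2 hC).ne
  · obtain ⟨C, hC⟩ := key d r q h hq
    exact gamma_lt d r hC

end Pool.Agent.Results.MP_33582f_pr.LinearBound
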